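import Pool.Agent.Lib.MP_57cceb_lc.Defs

universe u

namespace Pool.Agent.Lib.MP_57cceb_lc

open Cardinal Set Filter

variable {X : Type u}

theorem exists_base (U : Ultrafilter X) : ∃ B : Set (Set X), IsBase U B ∧ #B = character U := by
  have hne : {c : Cardinal.{u} | ∃ B : Set (Set X), IsBase U B ∧ #B = c}.Nonempty :=
    ⟨_, {A | A ∈ U}, ⟨fun b hb => hb, fun A hA => ⟨A, hA, subset_rfl⟩⟩, rfl⟩
  exact csInf_mem hne

theorem character_le {U : Ultrafilter X} {B : Set (Set X)} (h : IsBase U B) : character U ≤ #B :=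
  csInf_le' ⟨B, h, rfl⟩

/-- The number of finite subsets of a set with fewer than `c` elements is less than `c`. -/
theorem mk_finset_lt {α : Type u} {c : Cardinal.{u}} (hc : ℵ₀ ≤ c) (h : #α < c) :
    #(Finset α) < c := by
  rcases finite_or_infinite α with hf | hi
  · exact (Cardinal.mk_lt_aleph0 (α := Finset α)).trans_le hc
  · rw [Cardinal.mk_finset_of_infinite]; exact h

/-- Fewer than `Ch(U)` members of `U` do not generate `U`. -/
theorem exists_not_mem_generate {U : Ultrafilter X} (hinf : ℵ₀ ≤ character U)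
    (G : Set (Set X)) (hG : ∀ A ∈ G, A ∈ U) (hcard : #G < character U) :
    ∃ A ∈ U, A ∉ Filter.generate G := by
  by_contra hcon
  push Not at hcon
  let f : Finset G → Set X := fun t => ⋂ i ∈ t, (i : Set X)
  have hbase : IsBase U (Set.range f) := by
    constructor
    · rintro _ ⟨t, rfl⟩
      exact (Filter.biInter_finset_mem t).2 fun i _ => hG i.1 i.2
    · intro A hA
      have hA' := hcon A hA
      rw [Filter.mem_generate_iff] at hA'
      obtain ⟨t, htG, htfin, htA⟩ := hA'
      have hfin : (((↑) : G → Set X) ⁻¹' t).Finite :=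
        htfin.preimage Subtype.val_injective.injOn
      refine ⟨f hfin.toFinset, ⟨_, rfl⟩, ?_⟩
      intro x hx
      apply htA
      simp only [f, Set.mem_iInter] at hx
      intro s hs
      exact hx ⟨s, htG hs⟩ (by simpa using hs)
  have h1 := character_le hbase
  have h2 : #(Set.range f) ≤ #(Finset G) := Cardinal.mk_range_le
  exact absurd (h1.trans h2) (not_le.2 (mk_finset_lt hinf hcard))

/-- A uniform ultrafilter over an infinite set has infinite character. -/
theorem aleph0_le_character {U : Ultrafilter X} (hX : ℵ₀ ≤ #X) (hU : IsUniform U) :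
    ℵ₀ ≤ character U := by
  by_contra hcon
  push Not at hcon
  obtain ⟨B, hB, hcard⟩ := exists_base U
  rw [← hcard] at hcon
  have hBfin : B.Finite := Cardinal.lt_aleph0_iff_set_finite.1 hcon
  have hI : ⋂₀ B ∈ U := (Filter.sInter_mem hBfin).2 fun b hb => hB.1 b hb
  have hne : (⋂₀ B).Nonempty := U.nonempty_of_mem hI
  obtain ⟨x, hx⟩ := hne
  rcases U.mem_or_compl_mem {x} with h | h
  · have := hU _ h
    rw [Cardinal.mk_singleton] at this
    rw [← this] at hX
    exact absurd hX (not_le.2 Cardinal.one_lt_aleph0)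
  · obtain ⟨b, hb, hbs⟩ := hB.2 _ h
    exact hbs (hx b hb) rfl

end Pool.Agent.Lib.MP_57cceb_lc
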