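import Pool.Agent.Lib.MP_57cceb_lc.Complete

universe u

namespace Pool.Agent.Lib.MP_57cceb_lc

open Cardinal Set Filter Order
open scoped Ordinal

variable {X : Type u}

/-- Large sets have an injective choice function. -/
theorem injective_choice {W : Type u} (S : W → Set X) (h : ∀ w, #W ≤ #(S w)) :
    ∃ f : W → X, Function.Injective f ∧ ∀ w, f w ∈ S w := by
  classical
  rcases isEmpty_or_nonempty W with hWe | hWe
  · exact ⟨fun w => (hWe.false w).elim, fun w => (hWe.false w).elim, fun w => (hWe.false w).elim⟩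
  have hXne : Nonempty X := by
    obtain ⟨w⟩ := hWe
    have h1 : #(S w) ≠ 0 := by
      intro h0
      have h2 := h w
      rw [h0] at h2
      exact (Cardinal.mk_ne_zero_iff.2 ⟨w⟩) (nonpos_iff_eq_zero.1 h2)
    obtain ⟨x⟩ := Cardinal.mk_ne_zero_iff.1 h1
    exact ⟨x.1⟩
  let K := (#W).ord.ToType
  have hK : #K = #W := Cardinal.mk_ord_toType _
  obtain ⟨e⟩ := Cardinal.eq.1 hK
  have hIio : ∀ ξ : K, #(Iio ξ) < #W := fun ξ => by
    have := Cardinal.mk_Iio_lt ξ (by simp [K])
    rwa [hK] at this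
  have hstep : ∀ (k : K) (R : Set X), #R < #W → ∃ x ∈ S (e k), x ∉ R := by
    intro k R hR
    by_contra hcon
    push Not at hcon
    have h1 : S (e k) ⊆ R := hcon
    exact absurd ((h (e k)).trans (Cardinal.mk_le_mk_of_subset h1)) (not_le.2 hR)
  choose! step hstepS hstepR using hstep
  let g : K → X := WellFoundedLT.fix (fun t rec => step t (Set.range fun s : Iio t => rec s.1 s.2))
  have hg : ∀ t, g t = step t (Set.range fun s : Iio t => g s.1) := fun t =>
    WellFoundedLT.fix_eq _ t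
  have hcard : ∀ t, #(Set.range fun s : Iio t => g s.1) < #W := fun t =>
    Cardinal.mk_range_le.trans_lt (hIio t)
  have hgS : ∀ t, g t ∈ S (e t) := fun t => by
    rw [hg t]; exact hstepS t _ (hcard t)
  have hglt : ∀ s t, s < t → g s ≠ g t := by
    intro s t hst heq
    have h2 : g t ∉ Set.range fun s : Iio t => g s.1 := by
      rw [hg t]; exact hstepR t _ (hcard t)
    exact h2 ⟨⟨s, hst⟩, heq⟩
  refine ⟨fun w => g (e.symm w), ?_, ?_⟩
  · intro w w' hww
    by_contra hne
    have hne' : e.symm w ≠ e.symm w' := fun h => hne (e.symm.injective h)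
    rcases lt_or_gt_of_ne hne' with hlt | hlt
    · exact hglt _ _ hlt hww
    · exact hglt _ _ hlt hww.symm
  · intro w
    have := hgS (e.symm w)
    rwa [Equiv.apply_symm_apply] at this

/-- The character of a uniform ultrafilter over an infinite set `X` exceeds the cardinality of
`X`. -/
theorem mk_lt_character {U : Ultrafilter X} (hX : ℵ₀ ≤ #X) (hU : IsUniform U) :
    #X < character U := by
  classical
  by_contra hcon
  push Not at hcon
  obtain ⟨B, hB, hBcard⟩ := exists_base U
  have hW : #(B ⊕ B) ≤ #X := by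
    rw [Cardinal.mk_sum, Cardinal.lift_id, hBcard]
    exact Cardinal.add_le_of_le hX hcon hcon
  obtain ⟨f, hf, hfS⟩ := injective_choice (W := B ⊕ B)
    (fun w => Sum.elim (fun b : B => (b : Set X)) (fun b : B => (b : Set X)) w) (by
      rintro (b | b)
      · rw [Sum.elim_inl, hU _ (hB.1 _ b.2)]; exact hW
      · rw [Sum.elim_inr, hU _ (hB.1 _ b.2)]; exact hW)
  rcases U.mem_or_compl_mem (Set.range fun b : B => f (Sum.inl b)) with h | h
  · obtain ⟨b, hb, hbs⟩ := hB.2 _ h
    obtain ⟨b', hb'⟩ := hbs (hfS (Sum.inr ⟨b, hb⟩))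
    exact Sum.inl_ne_inr (hf hb')
  · obtain ⟨b, hb, hbs⟩ := hB.2 _ h
    exact hbs (hfS (Sum.inl ⟨b, hb⟩)) ⟨⟨b, hb⟩, rfl⟩

/-- If the character of a uniform ultrafilter over a set of size `ℵ_ α` has small cofinality then
it is at least `ℵ_ (α + ω₁)`. -/
theorem aleph_add_omega_one_le {U : Ultrafilter X} (hU : IsUniform U) (α : Ordinal.{u})
    (hα : #X = ℵ_ α) (hcf : (character U).ord.cof < #X) : ℵ_ (α + ω₁) ≤ character U := by
  have hX : ℵ₀ ≤ #X := by rw [hα]; exact Cardinal.aleph0_le_aleph α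
  have hlt := mk_lt_character hX hU
  have hinf := aleph0_le_character hX hU
  have hcof := aleph0_lt_cof U hinf
  by_contra hcon
  push Not at hcon
  obtain ⟨β, hβ⟩ := Cardinal.mem_range_aleph_iff.2 hinf
  rw [← hβ] at hlt hcon hcof hcf
  rw [hα] at hlt
  have h1 : α < β := Cardinal.aleph_lt_aleph.1 hlt
  have h2 : β < α + ω₁ := Cardinal.aleph_lt_aleph.1 hcon
  obtain ⟨γ, rfl⟩ : ∃ γ, β = α + γ := ⟨β - α, (Ordinal.add_sub_cancel_of_le h1.le).symm⟩
  have hγ : γ < ω₁ := (add_lt_add_iff_left α).1 h2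
  rcases Ordinal.zero_or_succ_or_isSuccLimit γ with h0 | ⟨δ, hδ⟩ | hlim
  · rw [h0, add_zero] at h1
    exact lt_irrefl _ h1
  · have hreg : (ℵ_ (α + γ)).IsRegular := by
      rw [← hδ, Order.succ_eq_add_one, ← add_assoc]
      exact Cardinal.isRegular_aleph_add_one _
    rw [hreg.cof_ord, hα] at hcf
    exact absurd hcf (not_lt.2 hlt.le)
  · have hlim' : IsSuccLimit (α + γ) := by
      exact Ordinal.isSuccLimit_add α hlim
    rw [Cardinal.ord_aleph, Ordinal.cof_omega hlim', Ordinal.cof_add α hlim.ne_bot,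
      Ordinal.cof_eq_aleph0_of_isSuccLimit hlim hγ] at hcof
    exact lt_irrefl _ hcof

end Pool.Agent.Lib.MP_57cceb_lc
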