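import Pool.Agent.Lib.MP_57cceb_lc.Basic

universe u

namespace Pool.Agent.Lib.MP_57cceb_lc

open Cardinal Set Filter Order

variable {X : Type u}

/-- Fewer than `cf (Ch U)` members of `U` can have an intersection outside `U`. -/
theorem exists_small_inter (U : Ultrafilter X) (hinf : ℵ₀ ≤ character U) :
    ∃ 𝒮 : Set (Set X), (∀ A ∈ 𝒮, A ∈ U) ∧ #𝒮 < (character U).ord.cof ∧ ⋂₀ 𝒮 ∉ U := by
  classical
  by_contra hcon
  push Not at hcon
  set κ := character U with hκ
  let K := κ.ord.ToType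
  have hK : #K = κ := Cardinal.mk_ord_toType κ
  have hKne : Nonempty K := by
    rw [← Cardinal.mk_ne_zero_iff, hK]
    exact (Cardinal.aleph0_pos.trans_le hinf).ne'
  have hKmax : NoMaxOrder K := Cardinal.noMaxOrder (by simpa using hinf)
  have hIio : ∀ ξ : K, #(Iio ξ) < κ := fun ξ => by
    have := Cardinal.mk_Iio_lt ξ (by simp [K])
    rwa [hK] at this
  obtain ⟨B, hB, hBcard⟩ := exists_base U
  have hBK : #B ≤ #K := by rw [hK, hBcard]
  have hBne : Nonempty B := by
    obtain ⟨b, hb, -⟩ := hB.2 Set.univ Filter.univ_mem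
    exact ⟨⟨b, hb⟩⟩
  obtain ⟨eB⟩ := hBK
  let b : K → B := Function.invFun eB
  have hb : ∀ s : B, ∃ ξ, b ξ = s := fun s => ⟨eB s, Function.leftInverse_invFun eB.injective s⟩
  -- a cofinal set of minimal order type
  obtain ⟨S, hScof, hStype⟩ := Ordinal.exists_ord_cof_eq K
  have hScard : #S = κ.ord.cof := by
    have := congrArg Ordinal.card hStype
    simpa [K] using this
  have hSIio : ∀ t : S, #(Iio t) < κ.ord.cof := fun t => by
    have := Cardinal.mk_Iio_lt t (by rw [hStype, hScard]; simp [K])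
    rwa [hScard] at this
  have hθ : ℵ₀ ≤ κ.ord.cof := by
    have : (κ.ord.cof) = Order.cof K := by simp [K]
    rw [this]
    exact Order.aleph0_le_cof
  have hSinf : Infinite S := by
    rw [Cardinal.infinite_iff, hScard]
    exact hθ
  -- the increasing chain of filters
  let F : S → Filter X := fun t => Filter.generate ((fun ξ => ((b ξ : B) : Set X)) '' Iio (t : K))
  have hFmono : ∀ s t : S, s ≤ t → F t ≤ F s := by
    intro s t hst
    rw [Filter.le_generate_iff]
    rintro A ⟨ξ, hξ, rfl⟩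
    have hξt : ξ < (t : K) := (show ξ < (s : K) from hξ).trans_le (show (s : K) ≤ (t : K) from hst)
    exact Filter.GenerateSets.basic ⟨ξ, hξt, rfl⟩
  have hFU : ∀ A ∈ U, ∃ t : S, A ∈ F t := by
    intro A hA
    obtain ⟨c, hc, hcA⟩ := hB.2 A hA
    obtain ⟨ξ, hξ⟩ := hb ⟨c, hc⟩
    obtain ⟨η, hη⟩ := exists_gt ξ
    obtain ⟨s, hs, hηs⟩ := hScof η
    refine ⟨⟨s, hs⟩, ?_⟩
    refine Filter.mem_of_superset ?_ hcA
    apply Filter.GenerateSets.basic
    exact ⟨ξ, hη.trans_le hηs, by simp only [hξ]⟩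
  have hFne : ∀ t : S, ∃ A ∈ U, A ∉ F t := by
    intro t
    apply exists_not_mem_generate hinf
    · rintro _ ⟨ξ, -, rfl⟩
      exact hB.1 _ (b ξ).2
    · exact Cardinal.mk_image_le.trans_lt (hIio _)
  -- step function
  have hstep : ∀ (t : S) (C : Set X), C ∈ U → ∃ A ∈ U, ∃ n : S, t ≤ n ∧ C ∈ F n ∧ A ∉ F n := by
    intro t C hC
    obtain ⟨n₀, hn₀⟩ := hFU C hC
    obtain ⟨A, hA, hAn⟩ := hFne (max t n₀)
    exact ⟨A, hA, max t n₀, le_max_left _ _, hFmono _ _ (le_max_right _ _) hn₀, hAn⟩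
  choose! step hstepU hstepn using hstep
  let A : S → Set X := WellFoundedLT.fix (fun t rec => step t (⋂ s : Iio t, rec s.1 s.2))
  have hA : ∀ t, A t = step t (⋂ s : Iio t, A s.1) := fun t => WellFoundedLT.fix_eq _ t
  have hinter : ∀ t : S, (∀ s < t, A s ∈ U) → (⋂ s : Iio t, A s.1) ∈ U := by
    intro t ht
    have h1 : #(Set.range (fun s : Iio t => A s.1)) < κ.ord.cof :=
      Cardinal.mk_range_le.trans_lt (hSIio t)
    have h2 := hcon (Set.range (fun s : Iio t => A s.1)) (by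
      rintro _ ⟨s, rfl⟩
      exact ht s.1 s.2) h1
    rwa [Set.sInter_range] at h2
  have hAU : ∀ t, A t ∈ U := by
    intro t
    induction t using WellFoundedLT.induction with
    | ind t ih =>
      rw [hA t]
      exact hstepU t _ (hinter t ih)
  let C : S → Set X := fun t => ⋂ s : Iio t, A s.1
  have hCU : ∀ t, C t ∈ U := fun t => hinter t fun s _ => hAU s
  have hn : ∀ t, ∃ n : S, t ≤ n ∧ C t ∈ F n ∧ A t ∉ F n := by
    intro t
    have := hstepn t (C t) (hCU t)
    rw [hA t]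
    exact this
  -- the unions of the differences along cofinal sets are in `U`
  let Y : Set S → Set X := fun E => {x | ∃ t ∈ E, x ∈ C t ∧ x ∉ A t}
  have hY : ∀ E : Set S, (∀ s, ∃ t ∈ E, s ≤ t) → Y E ∈ U := by
    intro E hE
    rcases U.mem_or_compl_mem (Y E) with h | h
    · exact h
    · exfalso
      obtain ⟨m, hm⟩ := hFU _ h
      obtain ⟨t, htE, hmt⟩ := hE m
      obtain ⟨n, htn, hCn, hAn⟩ := hn t
      apply hAn
      refine Filter.mem_of_superset (Filter.inter_mem hCn (hFmono m n (hmt.trans htn) hm)) ?_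
      rintro x ⟨hx1, hx2⟩
      by_contra hx3
      exact hx2 ⟨t, htE, hx1, hx3⟩
  -- two disjoint cofinal sets
  have hSS : #(S ⊕ S) = #S := by
    rw [Cardinal.mk_sum, Cardinal.lift_id, Cardinal.add_eq_self]
    rw [hScard]
    exact hθ
  obtain ⟨e⟩ := Cardinal.eq.1 hSS
  have hcofE : ∀ f : S → S, Function.Injective f → ∀ s, ∃ t ∈ Set.range f, s ≤ t := by
    intro f hf s
    by_contra hneg
    push Not at hneg
    have h1 : Set.range f ⊆ Iio s := by
      intro t ht
      rcases lt_or_ge t s with h | h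
      · exact h
      · exact absurd h (hneg t ht)
    have h2 : #(Set.range f) = #S := Cardinal.mk_range_eq f hf
    have h3 := (Cardinal.mk_le_mk_of_subset h1).trans_lt (hSIio s)
    rw [h2, hScard] at h3
    exact lt_irrefl _ h3
  have h0 := hY _ (hcofE (fun s => e (Sum.inl s)) (fun a a' h => Sum.inl_injective (e.injective h)))
  have h1 := hY _ (hcofE (fun s => e (Sum.inr s)) (fun a a' h => Sum.inr_injective (e.injective h)))
  obtain ⟨x, ⟨t, ⟨a, hat⟩, hxC, hxA⟩, ⟨t', ⟨a', hat'⟩, hxC', hxA'⟩⟩ :=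
    U.nonempty_of_mem (Filter.inter_mem h0 h1)
  have hne : t ≠ t' := by
    intro htt
    rw [← hat, ← hat'] at htt
    exact Sum.inl_ne_inr (e.injective htt)
  rcases lt_or_gt_of_ne hne with hlt | hlt
  · exact hxA (Set.mem_iInter.1 hxC' ⟨t, hlt⟩)
  · exact hxA' (Set.mem_iInter.1 hxC ⟨t', hlt⟩)

/-- The cofinality of the character is uncountable. -/
theorem aleph0_lt_cof (U : Ultrafilter X) (hinf : ℵ₀ ≤ character U) :
    ℵ₀ < (character U).ord.cof := by
  obtain ⟨𝒮, h𝒮, hcard, hnot⟩ := exists_small_inter U hinf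
  by_contra hcon
  push Not at hcon
  have hfin : 𝒮.Finite := Cardinal.lt_aleph0_iff_set_finite.1 (hcard.trans_le hcon)
  exact hnot ((Filter.sInter_mem hfin).2 fun A hA => h𝒮 A hA)

end Pool.Agent.Lib.MP_57cceb_lc
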