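import Mathlib

/-!
# Characters of ultrafilters

Definitions used by the hand-ins for `MP_57cceb_lc`.
-/

universe u

namespace Pool.Agent.Lib.MP_57cceb_lc

open Cardinal

/-- `B` is a base of the ultrafilter `U`: all members of `B` are in `U`, and every member of `U`
includes a member of `B`. -/
def IsBase {X : Type u} (U : Ultrafilter X) (B : Set (Set X)) : Prop :=
  (∀ b ∈ B, b ∈ U) ∧ ∀ A ∈ U, ∃ b ∈ B, b ⊆ A

/-- The character `Ch(U)`: the least cardinality of a base of `U`. -/
noncomputable def character {X : Type u} (U : Ultrafilter X) : Cardinal.{u} :=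
  sInf {c : Cardinal.{u} | ∃ B : Set (Set X), IsBase U B ∧ #B = c}

/-- `U` is uniform over `X`: every member of `U` has the cardinality of `X`. -/
def IsUniform {X : Type u} (U : Ultrafilter X) : Prop :=
  ∀ A ∈ U, #A = #X

end Pool.Agent.Lib.MP_57cceb_lc
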