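import Pool.Agent.Lib.MP_57cceb_lc.Germ
import Pool.Agent.Lib.MP_57cceb_lc.Bounds

universe u

namespace Pool.Agent.Lib.MP_57cceb_lc

open Cardinal Set Filter Order

variable {X : Type u}

/-- `U` is `δ`-decomposable: some map of `X` to a set of size `δ` sends `U` to a uniform
ultrafilter, that is, no set of fewer than `δ` values is taken on a member of `U`. -/
def IsDecomposable {X : Type u} (U : Ultrafilter X) (δ : Cardinal.{u}) : Prop :=
  ∃ (Y : Type u) (f : X → Y), #Y = δ ∧ ∀ S : Set Y, f ⁻¹' S ∈ U → #S = δ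

/-- If the ultrapower by `U` of a set `P` has size at least `γ`, where `γ` is larger than `#P ^ η`,
then `U` is decomposable at some cardinal in the interval `(η, #P ^ γ]`. -/
theorem exists_decomposable (U : Ultrafilter X) (P : Type u) [Nonempty P] (η γ : Cardinal.{u})
    (hγ : #P ^ η < γ) (hG : γ ≤ #(Filter.Germ (U : Filter X) P)) :
    ∃ δ, η < δ ∧ δ ≤ #P ^ γ ∧ IsDecomposable U δ := by
  classical
  obtain ⟨Γ, hΓ⟩ : ∃ Γ : Type u, #Γ = γ := ⟨γ.out, Cardinal.mk_out γ⟩
  rw [← hΓ] at hG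
  obtain ⟨e⟩ := hG
  -- representing functions
  let f : Γ → X → P := fun α => Quotient.out (e α)
  have hf : ∀ α β, f α =ᶠ[(U : Filter X)] f β → α = β := by
    intro α β h
    have h1 : (↑(f α) : Filter.Germ (U : Filter X) P) = ↑(f β) := Filter.Germ.coe_eq.2 h
    have h2 : ∀ w : Filter.Germ (U : Filter X) P,
        (↑(Quotient.out w) : Filter.Germ (U : Filter X) P) = w := fun w => Quotient.out_eq w
    have h3 : e α = e β := by
      have ha := h2 (e α)
      have hb := h2 (e β)
      rw [← ha, ← hb]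
      exact h1
    exact e.injective h3
  let q : X → (Γ → P) := fun x α => f α x
  -- a set of values of least size
  have hne : {c : Cardinal.{u} | ∃ S : Set (Γ → P), q ⁻¹' S ∈ U ∧ #S = c}.Nonempty :=
    ⟨_, Set.univ, by rw [Set.preimage_univ]; exact Filter.univ_mem, rfl⟩
  obtain ⟨S, hSU, hScard⟩ := csInf_mem hne
  have hmin : ∀ S' : Set (Γ → P), q ⁻¹' S' ∈ U → #S ≤ #S' := by
    intro S' hS'
    rw [hScard]
    exact csInf_le' ⟨S', hS', rfl⟩
  refine ⟨#S, ?_, ?_, ?_⟩
  · -- few values would identify two of the functions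
    by_contra hcon
    push Not at hcon
    have h1 : #(S → P) < #Γ := by
      rw [Cardinal.mk_pi, Cardinal.prod_const', hΓ]
      refine lt_of_le_of_lt ?_ hγ
      rcases eq_or_ne (#S) 0 with h0 | h0
      · rw [h0, Cardinal.power_zero]
        rcases eq_or_ne η 0 with h | h
        · rw [h, Cardinal.power_zero]
        · exact Cardinal.one_le_iff_ne_zero.2 (Cardinal.power_ne_zero _
            (Cardinal.mk_ne_zero_iff.2 inferInstance))
      · exact Cardinal.power_le_power_left (Cardinal.mk_ne_zero_iff.2 inferInstance) hcon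
    obtain ⟨α, β, hαβ, hne'⟩ : ∃ α β : Γ, (fun s : S => (s : Γ → P) α) =
        (fun s : S => (s : Γ → P) β) ∧ α ≠ β := by
      by_contra hinj
      push Not at hinj
      have h2 := Cardinal.mk_le_of_injective
        (f := fun (α : Γ) (s : S) => (s : Γ → P) α) (fun α β h => hinj α β h)
      exact absurd h2 (not_le.2 h1)
    apply hne'
    apply hf
    filter_upwards [hSU] with x hx
    exact congrFun hαβ ⟨q x, hx⟩
  · have h1 : #S ≤ #(Γ → P) := Cardinal.mk_set_le S
    refine h1.trans ?_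
    rw [Cardinal.mk_pi, Cardinal.prod_const', hΓ]
  · obtain ⟨x0, hx0⟩ := U.nonempty_of_mem hSU
    refine ⟨S, fun x => if h : q x ∈ S then ⟨q x, h⟩ else ⟨q x0, hx0⟩, rfl, ?_⟩
    intro R hR
    refine le_antisymm (Cardinal.mk_set_le R) ?_
    have h1 : q ⁻¹' (Subtype.val '' R) ∈ U := by
      filter_upwards [hR, hSU] with x hx hxS
      have hx' : (if h : q x ∈ S then (⟨q x, h⟩ : S) else ⟨q x0, hx0⟩) ∈ R := hx
      have hxS' : q x ∈ S := hxS
      rw [dif_pos hxS'] at hx'
      exact ⟨_, hx', rfl⟩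
    exact (hmin _ h1).trans Cardinal.mk_image_le

/-- If `|X|` is a strong limit and `cf (Ch(U)) < |X|`, then `U` is decomposable in every interval
`(η, 2 ^ (2 ^ η)⁺]` with `cf (Ch(U)) ≤ η < |X|`. -/
theorem exists_decomposable_of_cof (U : Ultrafilter X) (hX : (#X).IsStrongLimit)
    (hU : IsUniform U) (η : Cardinal.{u}) (hη : (character U).ord.cof ≤ η) (hηX : η < #X) :
    ∃ δ, η < δ ∧ δ ≤ 2 ^ Order.succ ((2 : Cardinal.{u}) ^ η) ∧ IsDecomposable U δ := by
  have hinfX : ℵ₀ ≤ #X := hX.aleph0_le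
  have hκX := mk_lt_character hinfX hU
  have hκ := aleph0_le_character hinfX hU
  have hη0 : ℵ₀ ≤ η := (aleph0_lt_cof U hκ).le.trans hη
  let T : Type u := (character U).ord.cof.out
  have hT : #T = (character U).ord.cof := Cardinal.mk_out _
  have h2η : (2 : Cardinal.{u}) ^ η < #X := hX.isStrongPrelimit hηX
  have hTη : #(Set T) ^ η = 2 ^ η := by
    rw [Cardinal.mk_set, ← Cardinal.power_mul, hT, Cardinal.mul_eq_right hη0 hη]
    rw [hT] at *
    exact (Cardinal.aleph0_pos.trans (aleph0_lt_cof U hκ)).ne'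
  have hsucc : Order.succ ((2 : Cardinal.{u}) ^ η) < #X := by
    have h1 : Order.succ ((2 : Cardinal.{u}) ^ η) ≤ 2 ^ ((2 : Cardinal.{u}) ^ η) :=
      Order.succ_le_of_lt (Cardinal.cantor _)
    exact h1.trans_lt (hX.isStrongPrelimit h2η)
  obtain ⟨δ, h1, h2, h3⟩ := exists_decomposable U (Set T) η (Order.succ ((2 : Cardinal.{u}) ^ η))
    (by rw [hTη]; exact Order.lt_succ _)
    (hsucc.le.trans (hκX.le.trans (character_lt_germ U hκ T hT).le))
  refine ⟨δ, h1, h2.trans (le_of_eq ?_), h3⟩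
  rw [Cardinal.mk_set, ← Cardinal.power_mul, hT]
  congr 1
  refine Cardinal.mul_eq_right ?_ ?_ ?_
  · exact hη0.trans ((Cardinal.cantor η).le.trans (Order.le_succ _))
  · exact hη.trans ((Cardinal.cantor η).le.trans (Order.le_succ _))
  · exact (Cardinal.aleph0_pos.trans (aleph0_lt_cof U hκ)).ne'

end Pool.Agent.Lib.MP_57cceb_lc
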