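import Pool.Agent.Lib.MP_57cceb_lc.Basic

universe u

namespace Pool.Agent.Lib.MP_57cceb_lc

open Cardinal Set Filter Order

variable {X : Type u}

/-- The character of `U` is smaller than the ultrapower by `U` of the power set of a set whose
cardinality is the cofinality of the character. -/
theorem character_lt_germ (U : Ultrafilter X) (hinf : ℵ₀ ≤ character U) (T : Type u)
    (hT : #T = (character U).ord.cof) :
    character U < #(Filter.Germ (U : Filter X) (Set T)) := by
  classical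
  by_contra hcon
  push Not at hcon
  set κ := character U with hκ
  -- the regular case
  have hθ : #T < κ := by
    rw [hT]
    refine lt_of_le_of_ne (Ordinal.cof_ord_le κ) ?_
    intro heq
    have h1 : #(Set T) ≤ #(Filter.Germ (U : Filter X) (Set T)) :=
      Cardinal.mk_le_of_injective (f := fun A : Set T => (↑A : Filter.Germ (U : Filter X) (Set T)))
        (fun A A' hAA => Filter.Germ.const_inj.1 hAA)
    rw [Cardinal.mk_set, hT, heq] at h1
    exact absurd (h1.trans hcon) (not_le.2 (Cardinal.cantor κ))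
  -- the well-ordered index set
  let K := κ.ord.ToType
  have hK : #K = κ := Cardinal.mk_ord_toType κ
  have hKne : Nonempty K := by
    rw [← Cardinal.mk_ne_zero_iff, hK]
    exact (Cardinal.aleph0_pos.trans_le hinf).ne'
  have hKmax : NoMaxOrder K := by
    have : Cardinal.ord ℵ₀ ≤ κ.ord := Cardinal.ord_le_ord.2 hinf
    exact Cardinal.noMaxOrder (by simpa using hinf)
  obtain ⟨B, hB, hBcard⟩ := exists_base U
  have hBK : #B ≤ #K := by rw [hK, hBcard]
  have hGK : #(Filter.Germ (U : Filter X) (Set T)) ≤ #K := by rw [hK]; exact hcon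
  have hBne : Nonempty B := by
    obtain ⟨b, hb, -⟩ := hB.2 Set.univ Filter.univ_mem
    exact ⟨⟨b, hb⟩⟩
  obtain ⟨eB⟩ := hBK
  obtain ⟨eG⟩ := hGK
  let b : K → B := Function.invFun eB
  have hb : ∀ s : B, ∃ ξ, b ξ = s := fun s => ⟨eB s, Function.leftInverse_invFun eB.injective s⟩
  let g' : K → Filter.Germ (U : Filter X) (Set T) := Function.invFun eG
  have hg' : ∀ s, ∃ ξ, g' ξ = s := fun s => ⟨eG s, Function.leftInverse_invFun eG.injective s⟩
  have hex : ∀ ξ, ∃ z : X → Set T, (↑z : Filter.Germ (U : Filter X) (Set T)) = g' ξ := fun ξ =>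
    Quotient.exists_rep (g' ξ)
  choose g hg using hex
  -- a cofinal map
  obtain ⟨S, hScof, hScard⟩ := Order.exists_cof_eq (α := K)
  have hTS : #T = #S := by
    rw [hT, hScard, Ordinal.cof_toType]
  obtain ⟨e⟩ := Cardinal.eq.1 hTS
  let h : T → K := fun t => (e t : K)
  have hh : ∀ ξ : K, ∃ t, ξ < h t := by
    intro ξ
    obtain ⟨η, hη⟩ := exists_gt ξ
    obtain ⟨s, hs, hηs⟩ := hScof η
    refine ⟨e.symm ⟨s, hs⟩, ?_⟩
    simp only [h, Equiv.apply_symm_apply]
    exact hη.trans_le hηs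
  -- the generating sets
  let G : T → Set (Set X) := fun t =>
    (fun ξ => ((b ξ : B) : Set X)) '' Iio (h t) ∪
      ((fun p : K × T => {x | p.2 ∉ g p.1 x}) '' (Iio (h t) ×ˢ Set.univ)) ∩ {Y | Y ∈ U}
  have hGU : ∀ t, ∀ A ∈ G t, A ∈ U := by
    rintro t A (⟨ξ, -, rfl⟩ | ⟨-, hA⟩)
    · exact hB.1 _ (b ξ).2
    · exact hA
  have hIio : ∀ ξ : K, #(Iio ξ) < κ := fun ξ => by
    have := Cardinal.mk_Iio_lt ξ (by simp [K])
    rwa [hK] at this
  have hGcard : ∀ t, #(G t) < κ := by
    intro t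
    refine (Cardinal.mk_union_le _ _).trans_lt ?_
    refine Cardinal.add_lt_of_lt hinf ?_ ?_
    · exact Cardinal.mk_image_le.trans_lt (hIio _)
    · refine (Cardinal.mk_le_mk_of_subset inter_subset_left).trans_lt ?_
      refine Cardinal.mk_image_le.trans_lt ?_
      rw [Cardinal.mk_setProd]
      refine Cardinal.mul_lt_of_lt hinf (by simpa using hIio (h t)) (by simpa using hθ)
  have hA : ∀ t, ∃ A ∈ U, A ∉ Filter.generate (G t) := fun t =>
    exists_not_mem_generate hinf (G t) (hGU t) (hGcard t)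
  choose A hAU hAG using hA
  -- the diagonal function
  let Z : X → Set T := fun x => {t | x ∉ A t}
  obtain ⟨ξ, hξ⟩ := hg' (↑Z : Filter.Germ (U : Filter X) (Set T))
  have hZ : ∀ᶠ x in (U : Filter X), g ξ x = Z x := by
    rw [← hg] at hξ
    exact Filter.Germ.coe_eq.1 hξ
  obtain ⟨c, hcB, hcZ⟩ := hB.2 {x | g ξ x = Z x} hZ
  obtain ⟨η, hη⟩ := hb ⟨c, hcB⟩
  obtain ⟨t, ht⟩ := hh (max ξ η)
  have hξt : ξ < h t := (le_max_left _ _).trans_lt ht
  have hηt : η < h t := (le_max_right _ _).trans_lt ht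
  apply hAG t
  have h1 : c ∈ Filter.generate (G t) := by
    apply Filter.GenerateSets.basic
    left
    exact ⟨η, hηt, by simp only [hη]⟩
  have h2U : {x | t ∉ g ξ x} ∈ U := by
    filter_upwards [hZ, hAU t] with x hx hxA
    change t ∉ g ξ x
    rw [hx]
    intro hxt
    exact hxt hxA
  have h2 : {x | t ∉ g ξ x} ∈ Filter.generate (G t) := by
    apply Filter.GenerateSets.basic
    right
    exact ⟨⟨(ξ, t), ⟨hξt, Set.mem_univ _⟩, rfl⟩, h2U⟩
  refine Filter.mem_of_superset (Filter.inter_mem h1 h2) ?_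
  rintro x ⟨hx1, hx2⟩
  have hx3 : g ξ x = Z x := hcZ hx1
  have hx4 : t ∉ g ξ x := hx2
  rw [hx3] at hx4
  exact not_not.1 hx4

end Pool.Agent.Lib.MP_57cceb_lc
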