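import Pool.Agent.Lib.MP_57cceb_lc.Defs

/-!
# Regular ultrafilters and the coinitiality of the unbounded functions

Further definitions used by a hand-in for `MP_57cceb_lc`.
-/

universe u

namespace Pool.Agent.Lib.MP_57cceb_lc

open Cardinal Filter

/-- `U` is `(ρ, μ)`-regular: there are `μ` members of `U` such that every point lies in fewer
than `ρ` of them (that is, any `ρ` of them have empty intersection). -/
def IsRegularFor {X : Type u} (U : Ultrafilter X) (ρ μ : Cardinal.{u}) : Prop :=
  ∃ (I : Type u) (A : I → Set X), #I = μ ∧ (∀ i, A i ∈ U) ∧ ∀ x, #{i | x ∈ A i} < ρ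

/-- The well-ordered set of order type `cf |X|`. -/
abbrev CofType (X : Type u) : Type u := (#X).ord.cof.ord.ToType

/-- `z : X → cf |X|` is unbounded modulo `U`: it is eventually above every `m < cf |X|`. -/
def IsUnboundedMod {X : Type u} (U : Ultrafilter X) (z : X → CofType X) : Prop :=
  ∀ m, ∀ᶠ x in (U : Filter X), m < z x

/-- The coinitiality of the part of the ultrapower of `cf |X|` by `U` that lies above all
constants: the least size of a set `Z` of functions, unbounded modulo `U`, such that every
function unbounded modulo `U` is above some member of `Z` modulo `U`. -/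
noncomputable def coinitiality {X : Type u} (U : Ultrafilter X) : Cardinal.{u} :=
  sInf {c : Cardinal.{u} | ∃ Z : Set (X → CofType X), (∀ z ∈ Z, IsUnboundedMod U z) ∧
    (∀ w, IsUnboundedMod U w → ∃ z ∈ Z, ∀ᶠ x in (U : Filter X), z x ≤ w x) ∧ #Z = c}

end Pool.Agent.Lib.MP_57cceb_lc
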