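import Pool.Agent.Lib.MP_57cceb_lc.RegDefs
import Pool.Agent.Lib.MP_57cceb_lc.Bounds

universe u

namespace Pool.Agent.Lib.MP_57cceb_lc

open Cardinal Set Filter Order

variable {X : Type u}

/-- A set of infinite size is filtered by `cf |X|` many smaller sets. -/
theorem exists_filtration (hX : ℵ₀ ≤ #X) :
    ∃ r : CofType X → Set X, (∀ m n, m ≤ n → r m ⊆ r n) ∧ (∀ x, ∃ m, x ∈ r m) ∧
      ∀ m, #(r m) < #X := by
  let K := (#X).ord.ToType
  have hK : #K = #X := Cardinal.mk_ord_toType _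
  have hKne : Nonempty K := by
    rw [← Cardinal.mk_ne_zero_iff, hK]
    exact (Cardinal.aleph0_pos.trans_le hX).ne'
  have hKmax : NoMaxOrder K := Cardinal.noMaxOrder (by simpa using hX)
  have hIio : ∀ ξ : K, #(Iio ξ) < #X := fun ξ => by
    have := Cardinal.mk_Iio_lt ξ (by simp [K])
    rwa [hK] at this
  obtain ⟨e⟩ := Cardinal.eq.1 hK
  obtain ⟨S, hScof, hStype⟩ := Ordinal.exists_ord_cof_eq K
  have h1 : Ordinal.type (α := CofType X) (· < ·) = Ordinal.type (α := S) (· < ·) := by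
    rw [hStype]
    simp [K, CofType]
  obtain ⟨f⟩ := Ordinal.type_eq.1 h1
  refine ⟨fun m => e '' Iio (f m : K), ?_, ?_, ?_⟩
  · intro m n hmn
    apply Set.image_mono
    apply Set.Iio_subset_Iio
    rcases eq_or_lt_of_le hmn with h | h
    · rw [h]
    · have : f m < f n := f.map_rel_iff.2 h
      exact this.le
  · intro x
    obtain ⟨η, hη⟩ := exists_gt (e.symm x)
    obtain ⟨s, hs, hηs⟩ := hScof η
    refine ⟨f.symm ⟨s, hs⟩, e.symm x, ?_, by simp⟩
    simp only [RelIso.apply_symm_apply]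
    exact hη.trans_le hηs
  · intro m
    exact Cardinal.mk_image_le.trans_lt (hIio _)

theorem exists_coinitial (U : Ultrafilter X) :
    ∃ Z : Set (X → CofType X), (∀ z ∈ Z, IsUnboundedMod U z) ∧
    (∀ w, IsUnboundedMod U w → ∃ z ∈ Z, ∀ᶠ x in (U : Filter X), z x ≤ w x) ∧
    #Z = coinitiality U := by
  have hne : {c : Cardinal.{u} | ∃ Z : Set (X → CofType X), (∀ z ∈ Z, IsUnboundedMod U z) ∧
    (∀ w, IsUnboundedMod U w → ∃ z ∈ Z, ∀ᶠ x in (U : Filter X), z x ≤ w x) ∧ #Z = c}.Nonempty :=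
    ⟨_, {z | IsUnboundedMod U z}, fun z hz => hz,
      fun w hw => ⟨w, hw, Filter.Eventually.of_forall fun x => le_rfl⟩, rfl⟩
  exact csInf_mem hne

theorem two_power_le (U : Ultrafilter X) (hX : (#X).IsStrongLimit) (hsing : (#X).ord.cof < #X)
    (hU : IsUniform U) (ρ : Cardinal.{u}) (hρ : ρ < #X) (hreg : IsRegularFor U ρ #X)
    (hco : coinitiality U ≤ character U) : 2 ^ #X ≤ character U := by
  classical
  have hinfX : ℵ₀ ≤ #X := hX.aleph0_le
  have hκX := mk_lt_character hinfX hU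
  have hκ := aleph0_le_character hinfX hU
  obtain ⟨r, hrmono, hrun, hrcard⟩ := exists_filtration hinfX
  let M := CofType X
  have hM : #M = (#X).ord.cof := Cardinal.mk_ord_toType _
  -- the bounded subsets
  let D := Σ m : M, Set (r m)
  have hD : #D ≤ #X := by
    rw [Cardinal.mk_sigma]
    refine (Cardinal.sum_le_mk_mul_iSup _).trans ?_
    refine Cardinal.mul_le_of_le hinfX (hM ▸ hsing.le) ?_
    refine ciSup_le' fun m => ?_
    rw [Cardinal.mk_set]
    exact (hX.isStrongPrelimit (hrcard m)).le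
  obtain ⟨I, A, hI, hAU, hAρ⟩ := hreg
  rw [← hI] at hD
  obtain ⟨φ⟩ := hD
  let s : X → Set D := fun x => {d | x ∈ A (φ d)}
  have hsρ : ∀ x, #(s x) ≤ ρ := by
    intro x
    refine le_trans ?_ (hAρ x).le
    exact Cardinal.mk_le_of_injective (f := fun d : s x => (⟨φ d.1, d.2⟩ : {i | x ∈ A i}))
      (fun d d' h => Subtype.ext (φ.injective (congrArg Subtype.val h)))
  have hsU : ∀ d, ∀ᶠ x in (U : Filter X), d ∈ s x := fun d => hAU (φ d)
  let tr : Set X → M → D := fun Y m => ⟨m, {y | (y : X) ∈ Y}⟩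
  let Dn : Set X → X → Set M := fun Y x => {m | ∃ m', m ≤ m' ∧ tr Y m' ∈ s x}
  choose p hp using hrun
  have hpU : ∀ m, ∀ᶠ x in (U : Filter X), m < p x := by
    intro m
    rcases U.mem_or_compl_mem {x | m < p x} with h | h
    · exact h
    · exfalso
      have h1 : {x | m < p x}ᶜ ⊆ r m := by
        intro x hx
        have hx' : p x ≤ m := not_lt.1 hx
        exact hrmono _ _ hx' (hp x)
      have h2 := Cardinal.mk_le_mk_of_subset h1
      rw [hU _ h] at h2
      exact absurd (hrcard m) (not_lt.2 h2)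
  have hex : ∀ Y : Set X, ∃ z : X → M, IsUnboundedMod U z ∧ ∀ x, ∀ m < z x, m ∈ Dn Y x := by
    intro Y
    refine ⟨fun x => if h : (Dn Y x)ᶜ.Nonempty then WellFounded.min wellFounded_lt _ h else p x,
      ?_, ?_⟩
    · intro m
      filter_upwards [hpU m, hsU (tr Y m)] with x hx1 hx2
      beta_reduce
      by_cases h : (Dn Y x)ᶜ.Nonempty
      · rw [dif_pos h]
        by_contra hcon
        have hle : WellFounded.min wellFounded_lt _ h ≤ m := not_lt.1 hcon
        exact WellFounded.min_mem wellFounded_lt _ h ⟨m, hle, hx2⟩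
      · rw [dif_neg h]
        exact hx1
    · intro x m hm
      beta_reduce at hm
      by_cases h : (Dn Y x)ᶜ.Nonempty
      · rw [dif_pos h] at hm
        by_contra hcon
        exact WellFounded.not_lt_min wellFounded_lt _ hcon hm
      · by_contra hcon
        exact h ⟨m, hcon⟩
  choose zz hzzU hzzD using hex
  obtain ⟨Z, hZU, hZco, hZcard⟩ := exists_coinitial U
  obtain ⟨B, hB, hBcard⟩ := exists_base U
  have hsel : ∀ Y : Set X, ∃ q : Z × B, ∀ x ∈ (q.2 : Set X), (q.1 : X → M) x ≤ zz Y x := by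
    intro Y
    obtain ⟨z, hz, hzle⟩ := hZco _ (hzzU Y)
    obtain ⟨b, hb, hbs⟩ := hB.2 _ hzle
    exact ⟨(⟨z, hz⟩, ⟨b, hb⟩), fun x hx => hbs hx⟩
  choose F hF using hsel
  have hfib : ∀ q : Z × B, #(F ⁻¹' {q}) ≤ ρ ^ #M := by
    intro q
    have hx : ∀ m : M, ∃ x ∈ (q.2 : Set X), m < (q.1 : X → M) x := by
      intro m
      exact U.nonempty_of_mem (Filter.inter_mem (hB.1 _ q.2.2) (hZU _ q.1.2 m))
    choose x hxb hxm using hx
    have hcode : ∀ Y : (F ⁻¹' {q}), ∀ m : M, ∃ d : s (x m), ∃ m', m ≤ m' ∧ tr Y.1 m' = d.1 := by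
      rintro ⟨Y, hY⟩ m
      have hY' : F Y = q := hY
      have h1 : (q.1 : X → M) (x m) ≤ zz Y (x m) := by
        have := hF Y (x m) (by rw [hY']; exact hxb m)
        rwa [hY'] at this
      obtain ⟨m', hm', hd⟩ := hzzD Y (x m) m ((hxm m).trans_le h1)
      exact ⟨⟨_, hd⟩, m', hm', rfl⟩
    choose code hcode' using hcode
    have hinj : Function.Injective (fun Y : (F ⁻¹' {q}) => (fun m => code Y m)) := by
      intro Y Y' hYY
      have hYY' : ∀ m, code Y m = code Y' m := fun m => congrFun hYY m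
      apply Subtype.ext
      ext y
      obtain ⟨m', hm', h1⟩ := hcode' Y (p y)
      obtain ⟨m'', hm'', h2⟩ := hcode' Y' (p y)
      rw [← hYY', ← h1] at h2
      have h3 : m'' = m' := congrArg Sigma.fst h2
      subst h3
      have h4 : {z : r m'' | (z : X) ∈ Y'.1} = {z : r m'' | (z : X) ∈ Y.1} :=
        eq_of_heq (Sigma.mk.inj h2).2
      have hy : y ∈ r m'' := hrmono _ _ hm' (hp y)
      have h5 : (⟨y, hy⟩ : r m'') ∈ {z : r m'' | (z : X) ∈ Y'.1} ↔
          (⟨y, hy⟩ : r m'') ∈ {z : r m'' | (z : X) ∈ Y.1} := by rw [h4]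
      exact h5.symm
    refine (Cardinal.mk_le_of_injective hinj).trans ?_
    rw [Cardinal.mk_pi]
    refine (Cardinal.prod_le_prod _ (fun _ => ρ) fun m => hsρ _).trans ?_
    rw [Cardinal.prod_const']
  have hρM : ρ ^ #M < #X := by
    have h1 : ρ ^ #M ≤ (2 ^ ρ) ^ #M := Cardinal.power_le_power_right (Cardinal.cantor ρ).le
    rw [← Cardinal.power_mul] at h1
    refine h1.trans_lt (hX.isStrongPrelimit ?_)
    exact Cardinal.mul_lt_of_lt hinfX hρ (hM ▸ hsing)
  have hfinal := Cardinal.mk_le_mk_mul_of_mk_preimage_le F hfib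
  rw [Cardinal.mk_set] at hfinal
  refine hfinal.trans ?_
  refine Cardinal.mul_le_of_le hκ ?_ (hρM.le.trans hκX.le)
  rw [Cardinal.mk_prod, Cardinal.lift_id, Cardinal.lift_id]
  exact Cardinal.mul_le_of_le hκ (hZcard ▸ hco) (hBcard ▸ le_rfl)

/-- The character is at most the size of the power set. -/
theorem character_le_two_power (U : Ultrafilter X) : character U ≤ 2 ^ #X := by
  rw [← Cardinal.mk_set]
  refine (character_le (B := {A | A ∈ U}) ⟨fun b hb => hb, fun A hA => ⟨A, hA, subset_rfl⟩⟩).trans ?_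
  exact Cardinal.mk_set_le _

end Pool.Agent.Lib.MP_57cceb_lc
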