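import Pool.Agent.Lib.MP_57cceb_lc.Regular

universe u

namespace Pool.Agent.Lib.MP_57cceb_lc

open Cardinal Set Filter Order

variable {X Λ : Type u}

/-- A `(ρ, λ)`-regular ultrafilter with `ρ < λ`, `λ` strong limit singular, has character at
least `2 ^ λ`. -/
theorem two_power_le_of_regular (U : Ultrafilter X) (hΛ : (#Λ).IsStrongLimit)
    (hsing : (#Λ).ord.cof < #Λ) (ρ : Cardinal.{u}) (hρ : ρ < #Λ)
    (hreg : IsRegularFor U ρ #Λ) : 2 ^ #Λ ≤ character U := by
  classical
  have hinf : ℵ₀ ≤ #Λ := hΛ.aleph0_le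
  obtain ⟨r, hrmono, hrun, hrcard⟩ := exists_filtration hinf
  let M := CofType Λ
  have hM : #M = (#Λ).ord.cof := Cardinal.mk_ord_toType _
  -- an infinite bound
  obtain ⟨σ, hρσ, hσinf, hσΛ⟩ : ∃ σ : Cardinal.{u}, ρ ≤ σ ∧ ℵ₀ ≤ σ ∧ σ < #Λ :=
    ⟨max ρ ℵ₀, le_max_left _ _, le_max_right _ _, max_lt hρ (by
      have h1 : ℵ₀ ≤ (#Λ).ord.cof := by
        rw [← hM]
        have h2 : (#Λ).ord.cof = Order.cof M := by simp [M]
        have h3 : NoMaxOrder (#Λ).ord.ToType := Cardinal.noMaxOrder (by simpa using hinf)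
        have h4 : Nonempty (#Λ).ord.ToType := by
          rw [← Cardinal.mk_ne_zero_iff, Cardinal.mk_ord_toType]
          exact (Cardinal.aleph0_pos.trans_le hinf).ne'
        rw [hM]
        have h5 : (#Λ).ord.cof = Order.cof (#Λ).ord.ToType := by simp
        rw [h5]
        exact Order.aleph0_le_cof
      exact h1.trans_lt hsing)⟩
  -- the index types
  let D₁ := Σ m : M, Set (r m)
  let D₂ := Σ m : M, Set (Set (r m)) × Bool
  have hD : #(D₁ ⊕ D₂) ≤ #Λ := by
    rw [Cardinal.mk_sum, Cardinal.lift_id, Cardinal.lift_id]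
    refine Cardinal.add_le_of_le hinf ?_ ?_
    · rw [Cardinal.mk_sigma]
      refine (Cardinal.sum_le_mk_mul_iSup _).trans ?_
      refine Cardinal.mul_le_of_le hinf (hM ▸ hsing.le) ?_
      refine ciSup_le' fun m => ?_
      rw [Cardinal.mk_set]
      exact (hΛ.isStrongPrelimit (hrcard m)).le
    · rw [Cardinal.mk_sigma]
      refine (Cardinal.sum_le_mk_mul_iSup _).trans ?_
      refine Cardinal.mul_le_of_le hinf (hM ▸ hsing.le) ?_
      refine ciSup_le' fun m => ?_
      rw [Cardinal.mk_prod, Cardinal.mk_set, Cardinal.mk_set, Cardinal.lift_uzero]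
      refine Cardinal.mul_le_of_le hinf ?_ ?_
      · exact (hΛ.isStrongPrelimit (hΛ.isStrongPrelimit (hrcard m))).le
      · simp only [Cardinal.mk_bool, Cardinal.lift_ofNat]
        exact (Cardinal.natCast_lt_aleph0 (n := 2)).le.trans hinf
  obtain ⟨I, A, hI, hAU, hAρ⟩ := hreg
  rw [← hI] at hD
  obtain ⟨φ⟩ := hD
  -- traces of nodes
  let tr : (m : M) → D₁ → Set (r m) := fun m d => {y | (y : Λ) ∈ (Subtype.val '' d.2 : Set Λ)}
  let Fz : X → (m : M) → Set (Set (r m)) := fun x m =>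
    {a | ∃ d : D₁, m ≤ d.1 ∧ x ∈ A (φ (Sum.inl d)) ∧ a = tr m d}
  have hFz : ∀ x m, #(Fz x m) < σ := by
    intro x m
    have h1 : Fz x m ⊆ Set.range (fun d : {d : D₁ // x ∈ A (φ (Sum.inl d))} => tr m d.1) := by
      rintro a ⟨d, -, hd, rfl⟩
      exact ⟨⟨d, hd⟩, rfl⟩
    refine (Cardinal.mk_le_mk_of_subset h1).trans_lt (Cardinal.mk_range_le.trans_lt ?_)
    refine lt_of_le_of_lt ?_ ((hAρ x).trans_le hρσ)
    exact Cardinal.mk_le_of_injective
      (f := fun d : {d : D₁ // x ∈ A (φ (Sum.inl d))} => (⟨φ (Sum.inl d.1), d.2⟩ : {i | x ∈ A i}))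
      (fun d d' h => Subtype.ext (Sum.inl_injective (φ.injective (congrArg Subtype.val h))))
  -- the requirements seen by a point
  let W : X → M → Type u := fun x m =>
    {p : Set (Set (r m)) × Bool // x ∈ A (φ (Sum.inr ⟨m, p⟩)) ∧ σ ≤ #p.1}
  have hW : ∀ x m, #(W x m) < σ := by
    intro x m
    refine lt_of_le_of_lt ?_ ((hAρ x).trans_le hρσ)
    refine Cardinal.mk_le_of_injective
      (f := fun p : W x m => (⟨φ (Sum.inr ⟨m, p.1⟩), p.2.1⟩ : {i | x ∈ A i})) ?_
    intro p p' h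
    have h1 := Sum.inr_injective (φ.injective (congrArg Subtype.val h))
    exact Subtype.ext (eq_of_heq (Sigma.mk.inj h1).2)
  have hchoice : ∀ x m, ∃ f : W x m → Set (r m), Function.Injective f ∧
      ∀ w, f w ∈ w.1.1 \ Fz x m := by
    intro x m
    refine injective_choice (fun w : W x m => w.1.1 \ Fz x m) ?_
    intro w
    refine (hW x m).le.trans ?_
    by_contra hcon
    push Not at hcon
    have h1 : #w.1.1 ≤ #(w.1.1 \ Fz x m : Set (Set (r m))) + #(Fz x m) := by
      refine (Cardinal.mk_le_mk_of_subset ?_).trans (Cardinal.mk_union_le _ _)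
      intro a ha
      by_cases h : a ∈ Fz x m
      · exact Or.inr h
      · exact Or.inl ⟨ha, h⟩
    exact absurd (w.2.2.trans h1) (not_le.2 (Cardinal.add_lt_of_lt hσinf hcon (hFz x m)))
  choose f hfinj hfS using hchoice
  -- the colouring
  let ψ : (x : X) → (m : M) → Set (r m) → Option Bool := fun x m a =>
    if h : ∃ w : W x m, f x m w = a then some h.choose.1.2 else none
  have hψ1 : ∀ x m a, a ∈ Fz x m → ψ x m a = none := by
    intro x m a ha
    have h : ¬ ∃ w : W x m, f x m w = a := by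
      rintro ⟨w, rfl⟩
      exact (hfS x m w).2 ha
    simp only [ψ]
    rw [dif_neg h]
  have hψ2 : ∀ x m (w : W x m), ψ x m (f x m w) = some w.1.2 := by
    intro x m w
    have h : ∃ w' : W x m, f x m w' = f x m w := ⟨w, rfl⟩
    simp only [ψ]
    rw [dif_pos h, hfinj x m h.choose_spec]
  -- the traces of a set
  let Yr : Set Λ → (m : M) → Set (r m) := fun Y m => {y | (y : Λ) ∈ Y}
  have htr : ∀ (Y : Set Λ) (m n : M), m ≤ n → tr m ⟨n, Yr Y n⟩ = Yr Y m := by
    intro Y m n hmn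
    ext y
    constructor
    · rintro ⟨y', hy', hyy⟩
      have h1 : (y' : Λ) ∈ Y := hy'
      rw [hyy] at h1
      exact h1
    · intro hy
      exact ⟨⟨y, hrmono m n hmn y.2⟩, hy, rfl⟩
  let K : Set Λ → Bool → Set X := fun Y i =>
    {x | ∃ m, ψ x m (Yr Y m) = some i ∧ ∀ m' < m, ψ x m' (Yr Y m') = none}
  have hK : ∀ Y x, x ∈ K Y true → x ∈ K Y false → False := by
    rintro Y x ⟨m, hm, hm'⟩ ⟨n, hn, hn'⟩
    rcases lt_trichotomy m n with h | h | h
    · rw [hn' m h] at hm
      exact Option.some_ne_none _ hm.symm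
    · subst h
      rw [hm] at hn
      exact Bool.noConfusion (Option.some_injective _ hn)
    · rw [hm' n h] at hn
      exact Option.some_ne_none _ hn.symm
  obtain ⟨B, hB, hBcard⟩ := exists_base U
  have hsel : ∀ Y : Set Λ, ∃ q : B × Bool, ∀ x ∈ (q.1 : Set X), x ∉ K Y q.2 := by
    intro Y
    have h1 : ∃ i, K Y i ∉ U := by
      by_contra hcon
      push Not at hcon
      obtain ⟨x, hx1, hx2⟩ := U.nonempty_of_mem (Filter.inter_mem (hcon true) (hcon false))
      exact hK Y x hx1 hx2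
    obtain ⟨i, hi⟩ := h1
    have h2 : (K Y i)ᶜ ∈ U := (U.mem_or_compl_mem _).resolve_left hi
    obtain ⟨b, hb, hbs⟩ := hB.2 _ h2
    exact ⟨(⟨b, hb⟩, i), fun x hx => hbs hx⟩
  choose Q hQ using hsel
  -- injections into a set of size `σ`
  let R : Type u := σ.out
  have hR : #R = σ := Cardinal.mk_out σ
  have hg : ∀ (n : M) (L : Set (Set (r n))), ∃ g : Set (r n) → R, #L < σ → Set.InjOn g L := by
    intro n L
    have hRne : Nonempty R := by
      rw [← Cardinal.mk_ne_zero_iff, hR]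
      exact (Cardinal.aleph0_pos.trans_le hσinf).ne'
    obtain ⟨r0⟩ := hRne
    by_cases hL : #L < σ
    · have h1 : #L ≤ #R := by rw [hR]; exact hL.le
      obtain ⟨g⟩ := h1
      refine ⟨fun a => if h : a ∈ L then g ⟨a, h⟩ else r0, fun _ => ?_⟩
      intro a ha a' ha' haa
      simp only [dif_pos ha, dif_pos ha'] at haa
      exact congrArg Subtype.val (g.injective haa)
    · exact ⟨fun _ => r0, fun h => absurd h hL⟩
  choose g hgi using hg
  have hfib : ∀ q : B × Bool, #(Q ⁻¹' {q}) ≤ σ ^ #M := by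
    rintro ⟨b, i⟩
    let Ls : Set Λ → (n : M) → Set (Set (r n)) := fun Y n =>
      {a | ∀ x ∈ (b : Set X), (∀ m < n, ψ x m (Yr Y m) = none) → ψ x n a ≠ some i}
    have hLs : ∀ Y n, #(Ls Y n) < σ := by
      intro Y n
      by_contra hcon
      push Not at hcon
      obtain ⟨x, ⟨hxb, hx1⟩, hx2⟩ := U.nonempty_of_mem (Filter.inter_mem (Filter.inter_mem
        (hB.1 _ b.2) (hAU (φ (Sum.inl ⟨n, Yr Y n⟩)))) (hAU (φ (Sum.inr ⟨n, (Ls Y n, i)⟩))))
      let w : W x n := ⟨(Ls Y n, i), hx2, hcon⟩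
      have h1 : f x n w ∈ Ls Y n := (hfS x n w).1
      refine h1 x hxb ?_ (hψ2 x n w)
      intro m hm
      apply hψ1
      exact ⟨⟨n, Yr Y n⟩, hm.le, hx1, (htr Y m n hm.le).symm⟩
    have hmem : ∀ Y, Q Y = (b, i) → ∀ n, Yr Y n ∈ Ls Y n := by
      intro Y hY n x hx hnone hsome
      have h1 := hQ Y x (by rw [hY]; exact hx)
      rw [hY] at h1
      exact h1 ⟨n, hsome, hnone⟩
    have hinj : Function.Injective (fun Y : (Q ⁻¹' {(b, i)}) =>
        (fun n : M => g n (Ls Y.1 n) (Yr Y.1 n))) := by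
      rintro ⟨Y, hY⟩ ⟨Y', hY'⟩ hYY
      have hY1 : Q Y = (b, i) := hY
      have hY1' : Q Y' = (b, i) := hY'
      have hcode : ∀ n : M, g n (Ls Y n) (Yr Y n) = g n (Ls Y' n) (Yr Y' n) := fun n =>
        congrFun hYY n
      have hall : ∀ n : M, Yr Y n = Yr Y' n := by
        intro n
        induction n using WellFoundedLT.induction with
        | ind n ih =>
          have h1 : Ls Y n = Ls Y' n := by
            ext a
            constructor
            · intro ha x hx hnone
              exact ha x hx fun m hm => by rw [ih m hm]; exact hnone m hm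
            · intro ha x hx hnone
              exact ha x hx fun m hm => by rw [← ih m hm]; exact hnone m hm
          have h2 := hmem Y hY1 n
          have h3 := hmem Y' hY1' n
          have h4 := hcode n
          rw [← h1] at h3 h4
          exact hgi n (Ls Y n) (hLs Y n) h2 h3 h4
      apply Subtype.ext
      change Y = Y'
      ext y
      obtain ⟨m, hm⟩ := hrun y
      have h1 := hall m
      have h2 : (⟨y, hm⟩ : r m) ∈ Yr Y m ↔ (⟨y, hm⟩ : r m) ∈ Yr Y' m := by rw [h1]
      exact h2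
    refine (Cardinal.mk_le_of_injective hinj).trans ?_
    rw [Cardinal.mk_pi, Cardinal.prod_const', hR]
  have hσM : σ ^ #M < #Λ := by
    have h1 : σ ^ #M ≤ (2 ^ σ) ^ #M := Cardinal.power_le_power_right (Cardinal.cantor σ).le
    rw [← Cardinal.power_mul] at h1
    refine h1.trans_lt (hΛ.isStrongPrelimit ?_)
    exact Cardinal.mul_lt_of_lt hinf hσΛ (hM ▸ hsing)
  have hfinal := Cardinal.mk_le_mk_mul_of_mk_preimage_le Q hfib
  rw [Cardinal.mk_set, Cardinal.mk_prod, Cardinal.lift_uzero, hBcard] at hfinal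
  by_contra hcon
  push Not at hcon
  have h2inf : ℵ₀ ≤ (2 : Cardinal.{u}) ^ #Λ := hinf.trans (Cardinal.cantor _).le
  refine absurd hfinal (not_le.2 ?_)
  refine Cardinal.mul_lt_of_lt h2inf (Cardinal.mul_lt_of_lt h2inf hcon ?_)
    (hσM.trans (Cardinal.cantor _))
  simp only [Cardinal.mk_bool, Cardinal.lift_ofNat]
  exact (Cardinal.natCast_lt_aleph0 (n := 2)).trans_le h2inf

end Pool.Agent.Lib.MP_57cceb_lc
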