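import Pool.Agent.Lib.MP_57cceb_lc.Germ
import Pool.Agent.Lib.MP_57cceb_lc.Bounds

universe u

namespace Pool.Agent.Lib.MP_57cceb_lc

open Cardinal Set Filter Order

variable {X : Type u}

/-- Sums of few sufficiently complete ultrafilters have small ultrapowers. -/
theorem mk_germ_le (U : Ultrafilter X) (I : Type u) (E : Ultrafilter I) (V : I → Ultrafilter X)
    (hUV : ∀ A : Set X, A ∈ U ↔ ∀ᶠ i in (E : Filter I), A ∈ V i) (T : Type u) [Nonempty T]
    (hcomp : ∀ᶠ i in (E : Filter I), ∀ 𝒮 : Set (Set X), #𝒮 ≤ #T → (∀ A ∈ 𝒮, A ∈ V i) →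
      ⋂₀ 𝒮 ∈ V i) :
    #(Filter.Germ (U : Filter X) T) ≤ #T ^ #I := by
  classical
  have hconst : ∀ f : X → T, ∀ᶠ i in (E : Filter I), ∃ c, {x | f x = c} ∈ V i := by
    intro f
    filter_upwards [hcomp] with i hi
    by_contra hcon
    push Not at hcon
    have h1 : ∀ c, {x | f x ≠ c} ∈ V i := by
      intro c
      rcases (V i).mem_or_compl_mem {x | f x = c} with h | h
      · exact absurd h (hcon c)
      · exact h
    have h2 := hi (Set.range fun c : T => {x | f x ≠ c}) Cardinal.mk_range_le (by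
      rintro _ ⟨c, rfl⟩
      exact h1 c)
    obtain ⟨x, hx⟩ := (V i).nonempty_of_mem h2
    exact hx _ ⟨f x, rfl⟩ rfl
  let cc : (X → T) → I → T := fun f i =>
    if h : ∃ c, {x | f x = c} ∈ V i then h.choose else Classical.arbitrary T
  have hcc : ∀ f : X → T, ∀ᶠ i in (E : Filter I), {x | f x = cc f i} ∈ V i := by
    intro f
    filter_upwards [hconst f] with i hi
    have : cc f i = hi.choose := dif_pos hi
    rw [this]
    exact hi.choose_spec
  have hinj : Function.Injective
      (fun q : Filter.Germ (U : Filter X) T => cc (Quotient.out q)) := by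
    intro q q' hqq
    have hqq' : cc (Quotient.out q) = cc (Quotient.out q') := hqq
    have h1 : {x | Quotient.out q x = Quotient.out q' x} ∈ U := by
      rw [hUV]
      filter_upwards [hcc (Quotient.out q), hcc (Quotient.out q')] with i h1 h2
      rw [← hqq'] at h2
      filter_upwards [h1, h2] with x h3 h4
      exact h3.trans h4.symm
    have h2 : (↑(Quotient.out q) : Filter.Germ (U : Filter X) T) = ↑(Quotient.out q') :=
      Filter.Germ.coe_eq.2 h1
    have h3 : ∀ w : Filter.Germ (U : Filter X) T,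
        (↑(Quotient.out w) : Filter.Germ (U : Filter X) T) = w := fun w => Quotient.out_eq w
    rw [h3, h3] at h2
    exact h2
  refine (Cardinal.mk_le_of_injective hinj).trans ?_
  simp

/-- Sums of few ultrafilters whose completeness tends to `|X|` have characters of cofinality at
least `|X|`. -/
theorem le_cof_of_sum (U : Ultrafilter X) (hX : (#X).IsStrongLimit) (hU : IsUniform U)
    (I : Type u) (E : Ultrafilter I) (V : I → Ultrafilter X) (hI : #I < #X)
    (hUV : ∀ A : Set X, A ∈ U ↔ ∀ᶠ i in (E : Filter I), A ∈ V i)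
    (hcomp : ∀ θ < #X, ∀ᶠ i in (E : Filter I), ∀ 𝒮 : Set (Set X), #𝒮 ≤ θ →
      (∀ A ∈ 𝒮, A ∈ V i) → ⋂₀ 𝒮 ∈ V i) :
    #X ≤ (character U).ord.cof := by
  by_contra hcon
  push Not at hcon
  have hinfX : ℵ₀ ≤ #X := hX.aleph0_le
  have hκX := mk_lt_character hinfX hU
  have hκ := aleph0_le_character hinfX hU
  let T := (character U).ord.cof.out
  have hT : #T = (character U).ord.cof := Cardinal.mk_out _
  have hST : #(Set T) < #X := by
    rw [Cardinal.mk_set]
    exact hX.isStrongPrelimit (hT ▸ hcon)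
  have h1 := mk_germ_le U I E V hUV (Set T) (hcomp _ hST)
  have h2 := character_lt_germ U hκ T hT
  have h3 : #(Set T) ^ #I < #X := by
    rw [Cardinal.mk_set, ← Cardinal.power_mul]
    exact hX.isStrongPrelimit (Cardinal.mul_lt_of_lt hinfX (hT ▸ hcon) hI)
  exact absurd (h2.trans_le h1) (not_lt.2 (h3.le.trans hκX.le))

end Pool.Agent.Lib.MP_57cceb_lc
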