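import Pool.Agent.Lib.MP_57cceb_lc.RegularFull

universe u

namespace Pool.Agent.Lib.MP_57cceb_lc

open Cardinal Set Filter Order

variable {X : Type u}

/-- An ultrafilter of infinite character is the union of a chain, of length `cf (Ch(U))`, of
filters generated by fewer than `Ch(U)` sets. -/
theorem exists_chain (U : Ultrafilter X) (hinf : ℵ₀ ≤ character U) :
    ∃ (S : Type u) (G : S → Set (Set X)), #S = (character U).ord.cof ∧
      (∀ s, ∀ A ∈ G s, A ∈ U) ∧ (∀ s, #(G s) < character U) ∧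
      ∀ A ∈ U, ∃ s, A ∈ Filter.generate (G s) := by
  classical
  set κ := character U with hκ
  let K := κ.ord.ToType
  have hK : #K = κ := Cardinal.mk_ord_toType κ
  have hKne : Nonempty K := by
    rw [← Cardinal.mk_ne_zero_iff, hK]
    exact (Cardinal.aleph0_pos.trans_le hinf).ne'
  have hKmax : NoMaxOrder K := Cardinal.noMaxOrder (by simpa using hinf)
  have hIio : ∀ ξ : K, #(Iio ξ) < κ := fun ξ => by
    have := Cardinal.mk_Iio_lt ξ (by simp [K])
    rwa [hK] at this
  obtain ⟨B, hB, hBcard⟩ := exists_base U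
  have hBK : #B ≤ #K := by rw [hK, hBcard]
  have hBne : Nonempty B := by
    obtain ⟨b, hb, -⟩ := hB.2 Set.univ Filter.univ_mem
    exact ⟨⟨b, hb⟩⟩
  obtain ⟨eB⟩ := hBK
  let b : K → B := Function.invFun eB
  have hb : ∀ s : B, ∃ ξ, b ξ = s := fun s => ⟨eB s, Function.leftInverse_invFun eB.injective s⟩
  obtain ⟨S, hScof, hScard⟩ := Order.exists_cof_eq (α := K)
  refine ⟨S, fun s => (fun ξ => ((b ξ : B) : Set X)) '' Iio (s : K), ?_, ?_, ?_, ?_⟩
  · rw [hScard, Ordinal.cof_toType]
  · rintro s _ ⟨ξ, -, rfl⟩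
    exact hB.1 _ (b ξ).2
  · intro s
    exact Cardinal.mk_image_le.trans_lt (hIio _)
  · intro A hA
    obtain ⟨c, hc, hcA⟩ := hB.2 A hA
    obtain ⟨ξ, hξ⟩ := hb ⟨c, hc⟩
    obtain ⟨η, hη⟩ := exists_gt ξ
    obtain ⟨s, hs, hηs⟩ := hScof η
    refine ⟨⟨s, hs⟩, Filter.mem_of_superset (Filter.GenerateSets.basic ?_) hcA⟩
    exact ⟨ξ, hη.trans_le hηs, by simp only [hξ]⟩

/-- If `|X|` is strong limit singular and `cf (Ch(U)) < |X|`, then for every `ρ < |X|` there are
`μ < |X|` and fewer than `Ch(U)` members of `U` such that, among any `μ` sets of which every point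
lies in at most `ρ`, one is disjoint from a member of the filter generated by them. -/
theorem exists_saturated (U : Ultrafilter X) (hX : (#X).IsStrongLimit)
    (hsing : (#X).ord.cof < #X) (hU : IsUniform U) (hcf : (character U).ord.cof < #X)
    (ρ : Cardinal.{u}) (hρ : ρ < #X) :
    ∃ μ < #X, ∃ 𝒢 : Set (Set X), (∀ A ∈ 𝒢, A ∈ U) ∧ #𝒢 < character U ∧
      ∀ (I : Type u) (N : I → Set X), #I = μ → (∀ x, #{i | x ∈ N i} ≤ ρ) →
        ∃ i, (N i)ᶜ ∈ Filter.generate 𝒢 := by
  classical
  by_contra hcon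
  push Not at hcon
  have hinfX : ℵ₀ ≤ #X := hX.aleph0_le
  have hκ := aleph0_le_character hinfX hU
  obtain ⟨S, G, hS, hGU, hGcard, hGcov⟩ := exists_chain U hκ
  obtain ⟨r, hrmono, hrun, hrcard⟩ := exists_filtration hinfX
  let M := CofType X
  have hM : #M = (#X).ord.cof := Cardinal.mk_ord_toType _
  -- the positive sets
  have hpos : ∀ (m : M) (s : S), ∃ N : r m → Set X, (∀ x, #{i | x ∈ N i} ≤ ρ) ∧
      ∀ i, (N i)ᶜ ∉ Filter.generate (G s) := by
    intro m s
    obtain ⟨I, N, hI, hN, hNpos⟩ := hcon (#(r m)) (hrcard m) (G s) (hGU s) (hGcard s)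
    obtain ⟨e⟩ := Cardinal.eq.1 hI
    refine ⟨fun i => N (e.symm i), fun x => ?_, fun i => hNpos _⟩
    refine le_trans ?_ (hN x)
    exact Cardinal.mk_le_of_injective
      (f := fun i : {i | x ∈ N (e.symm i)} => (⟨e.symm i.1, i.2⟩ : {i | x ∈ N i}))
      (fun i i' h => Subtype.ext (e.symm.injective (congrArg Subtype.val h)))
  choose N hNρ hNpos using hpos
  -- their unions along the chain are in `U`
  have hC : ∀ (m : M) (i : r m), (⋃ s, N m s i) ∈ U := by
    intro m i
    rcases U.mem_or_compl_mem (⋃ s, N m s i) with h | h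
    · exact h
    · exfalso
      obtain ⟨s, hs⟩ := hGcov _ h
      apply hNpos m s i
      refine Filter.mem_of_superset hs ?_
      intro x hx hxN
      exact hx (Set.mem_iUnion.2 ⟨s, hxN⟩)
  -- a regular family
  set σ : Cardinal.{u} := (#X).ord.cof * ((character U).ord.cof * max ρ ℵ₀) with hσ
  have hρ' : max ρ ℵ₀ < #X := max_lt hρ (by
    have h1 : ℵ₀ < (character U).ord.cof := aleph0_lt_cof U hκ
    exact h1.trans hcf)
  have hσX : σ < #X := Cardinal.mul_lt_of_lt hinfX hsing (Cardinal.mul_lt_of_lt hinfX hcf hρ')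
  have hreg : IsRegularFor U (Order.succ σ) #X := by
    refine ⟨Σ m : M, r m, fun p => ⋃ s, N p.1 s p.2, ?_, fun p => hC p.1 p.2, ?_⟩
    · refine le_antisymm ?_ ?_
      · rw [Cardinal.mk_sigma]
        refine (Cardinal.sum_le_mk_mul_iSup _).trans ?_
        refine Cardinal.mul_le_of_le hinfX (hM ▸ hsing.le) ?_
        exact ciSup_le' fun m => (hrcard m).le
      · choose p hp using hrun
        exact Cardinal.mk_le_of_injective (f := fun x : X => (⟨p x, x, hp x⟩ : Σ m : M, r m))
          (fun x x' h => by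
            have h1 := congrArg (fun z : (Σ m : M, r m) => (z.2 : X)) h
            exact h1)
    · intro x
      refine Order.lt_succ_iff.2 ?_
      -- count
      have h1 : #{p : (Σ m : M, r m) | x ∈ ⋃ s, N p.1 s p.2} ≤
          #(Σ m : M, Σ s : S, {i : r m | x ∈ N m s i}) := by
        have hex : ∀ p : {p : (Σ m : M, r m) | x ∈ ⋃ s, N p.1 s p.2}, ∃ s, x ∈ N p.1.1 s p.1.2 :=
          fun p => Set.mem_iUnion.1 p.2
        choose t ht using hex
        refine Cardinal.mk_le_of_injective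
          (f := fun p => (⟨p.1.1, t p, p.1.2, ht p⟩ : Σ m : M, Σ s : S, {i : r m | x ∈ N m s i})) ?_
        intro p p' h
        apply Subtype.ext
        have h2 := congrArg (fun z : (Σ m : M, Σ s : S, {i : r m | x ∈ N m s i}) =>
          (⟨z.1, z.2.2.1⟩ : Σ m : M, r m)) h
        exact h2
      refine h1.trans ?_
      rw [Cardinal.mk_sigma]
      refine (Cardinal.sum_le_mk_mul_iSup _).trans ?_
      rw [hσ, hM]
      refine mul_le_mul' le_rfl (ciSup_le' fun m => ?_)
      rw [Cardinal.mk_sigma]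
      refine (Cardinal.sum_le_mk_mul_iSup _).trans ?_
      rw [hS]
      refine mul_le_mul' le_rfl (ciSup_le' fun s => ?_)
      exact (hNρ m s x).trans (le_max_left _ _)
  have hσX' : Order.succ σ < #X := by
    have h1 : Order.succ σ ≤ 2 ^ σ := Order.succ_le_of_lt (Cardinal.cantor _)
    exact h1.trans_lt (hX.isStrongPrelimit hσX)
  have hbig := two_power_le_of_regular U hX hsing _ hσX' hreg
  have heq : character U = 2 ^ #X := le_antisymm (character_le_two_power U) hbig
  rw [heq] at hcf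
  exact absurd hcf (not_lt.2 (Cardinal.lt_cof_power hX.aleph0_le Cardinal.one_lt_two).le)

end Pool.Agent.Lib.MP_57cceb_lc
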